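import Mathlib

open scoped InnerProductSpace
open Module

namespace Pool.Agent.Results.MP_69de12_an.HilbertBound

/-- The Hilbert space `ℓ²` over `𝕜`. -/
abbrev Ell2 (𝕜 : Type*) [RCLike 𝕜] : Type _ := lp (fun _ : ℕ => 𝕜) 2

section Definitions

variable {𝕜 : Type*} [RCLike 𝕜] {X Y : Type*} [NormedAddCommGroup X] [NormedSpace 𝕜 X]
  [NormedAddCommGroup Y] [NormedSpace 𝕜 Y]

/-- The worst-case error over the closed unit ball of the approximation of `S` by the affine map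
`x ↦ y_0 + ∑ u_j(x) y_j`. -/
noncomputable def worstError {n : ℕ} (S : X →L[𝕜] Y) (u : Fin n → X →L[𝕜] 𝕜) (y₀ : Y)
    (y : Fin n → Y) : ℝ :=
  ⨆ x : Metric.closedBall (0 : X) 1, ‖S x - y₀ - ∑ j, u j x • y j‖

/-- The approximation number `a_n(S)` (linear width of the unit ball with respect to `S`): the
infimum over `u_1, …, u_n ∈ X'` and `y_0, …, y_n ∈ Y` of the supremum over the closed unit ball of
`‖S x - y_0 - ∑ u_j(x) y_j‖`. -/
noncomputable def approxNumber (n : ℕ) (S : X →L[𝕜] Y) : ℝ :=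
  sInf {r | ∃ (u : Fin n → X →L[𝕜] 𝕜) (y₀ : Y) (y : Fin n → Y), r = worstError S u y₀ y}

/-- All numbers `a_n(B S A)` with operators `A : H → X` and `B : Y → H` of norm at most one. -/
def sandwichNumbers (n : ℕ) (H : Type*) [NormedAddCommGroup H] [NormedSpace 𝕜 H]
    (S : X →L[𝕜] Y) : Set ℝ :=
  {r | ∃ (A : H →L[𝕜] X) (B : Y →L[𝕜] H), ‖A‖ ≤ 1 ∧ ‖B‖ ≤ 1 ∧
    r = approxNumber n (B.comp (S.comp A))}

/-- The Hilbert number `h_n(S)`: the supremum of `a_n(B S A)` over all operators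
`A : ℓ² → X` and `B : Y → ℓ²` of norm at most one. -/
noncomputable def hilbertNumber (n : ℕ) (S : X →L[𝕜] Y) : ℝ :=
  sSup (sandwichNumbers n (Ell2 𝕜) S)

/-- The geometric mean `G_n(S)` of the Hilbert numbers `h_0(S), …, h_n(S)`. -/
noncomputable def geomMean (n : ℕ) (S : X →L[𝕜] Y) : ℝ :=
  (∏ k ∈ Finset.range (n + 1), hilbertNumber k S) ^ (1 / ((n : ℝ) + 1))

end Definitions

section Basic

variable {𝕜 : Type*} [RCLike 𝕜] {X Y : Type*} [NormedAddCommGroup X] [NormedSpace 𝕜 X]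
  [NormedAddCommGroup Y] [NormedSpace 𝕜 Y]

lemma bdd_sup {n : ℕ} (S : X →L[𝕜] Y) (u : Fin n → X →L[𝕜] 𝕜) (y₀ : Y) (y : Fin n → Y) :
    BddAbove (Set.range fun x : Metric.closedBall (0 : X) 1 =>
      ‖S x - y₀ - ∑ j, u j x • y j‖) := by
  refine ⟨‖S‖ + ‖y₀‖ + ∑ j, ‖u j‖ * ‖y j‖, ?_⟩
  rintro _ ⟨⟨x, hx⟩, rfl⟩
  have hx1 : ‖x‖ ≤ 1 := by simpa using hx
  have h1 : ‖S x‖ ≤ ‖S‖ := by
    refine (S.le_opNorm x).trans ?_
    exact mul_le_of_le_one_right (norm_nonneg _) hx1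
  have h2 : ‖∑ j, u j x • y j‖ ≤ ∑ j, ‖u j‖ * ‖y j‖ := by
    refine (norm_sum_le _ _).trans (Finset.sum_le_sum fun j _ => ?_)
    rw [norm_smul]
    refine mul_le_mul_of_nonneg_right ?_ (norm_nonneg _)
    refine ((u j).le_opNorm x).trans ?_
    exact mul_le_of_le_one_right (norm_nonneg _) hx1
  have h3 := norm_sub_le (S x - y₀) (∑ j, u j x • y j)
  have h4 := norm_sub_le (S x) y₀
  simp only
  linarith

lemma worstError_nonneg {n : ℕ} (S : X →L[𝕜] Y) (u : Fin n → X →L[𝕜] 𝕜) (y₀ : Y) (y : Fin n → Y) :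
    0 ≤ worstError S u y₀ y :=
  Real.iSup_nonneg fun _ => norm_nonneg _

lemma le_worstError {n : ℕ} (S : X →L[𝕜] Y) (u : Fin n → X →L[𝕜] 𝕜) (y₀ : Y) (y : Fin n → Y)
    {x : X} (hx : ‖x‖ ≤ 1) : ‖S x - y₀ - ∑ j, u j x • y j‖ ≤ worstError S u y₀ y :=
  le_ciSup (bdd_sup S u y₀ y) ⟨x, by simpa using hx⟩

lemma worstError_le {n : ℕ} {S : X →L[𝕜] Y} {u : Fin n → X →L[𝕜] 𝕜} {y₀ : Y} {y : Fin n → Y}
    {r : ℝ} (h : ∀ x, ‖x‖ ≤ 1 → ‖S x - y₀ - ∑ j, u j x • y j‖ ≤ r) : worstError S u y₀ y ≤ r := by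
  have : Nonempty (Metric.closedBall (0 : X) 1) := ⟨⟨0, by simp⟩⟩
  apply ciSup_le
  rintro ⟨x, hx⟩
  exact h x (by simpa using hx)

lemma approxNumber_nonneg (n : ℕ) (S : X →L[𝕜] Y) : 0 ≤ approxNumber n S := by
  apply Real.sInf_nonneg
  rintro _ ⟨u, y₀, y, rfl⟩
  exact worstError_nonneg S u y₀ y

lemma approxNumber_le_worstError {n : ℕ} (S : X →L[𝕜] Y) (u : Fin n → X →L[𝕜] 𝕜) (y₀ : Y)
    (y : Fin n → Y) : approxNumber n S ≤ worstError S u y₀ y := by
  apply csInf_le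
  · refine ⟨0, ?_⟩
    rintro _ ⟨u, y₀, y, rfl⟩
    exact worstError_nonneg S u y₀ y
  · exact ⟨u, y₀, y, rfl⟩

lemma approxNumber_le {n : ℕ} {S : X →L[𝕜] Y} {r : ℝ} (u : Fin n → X →L[𝕜] 𝕜) (y₀ : Y)
    (y : Fin n → Y) (h : ∀ x, ‖x‖ ≤ 1 → ‖S x - y₀ - ∑ j, u j x • y j‖ ≤ r) :
    approxNumber n S ≤ r :=
  (approxNumber_le_worstError S u y₀ y).trans (worstError_le h)

lemma le_approxNumber {n : ℕ} {S : X →L[𝕜] Y} {r : ℝ}
    (h : ∀ (u : Fin n → X →L[𝕜] 𝕜) (y₀ : Y) (y : Fin n → Y),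
      ∃ x, ‖x‖ ≤ 1 ∧ r ≤ ‖S x - y₀ - ∑ j, u j x • y j‖) : r ≤ approxNumber n S := by
  apply le_csInf
  · exact ⟨_, 0, 0, 0, rfl⟩
  rintro _ ⟨u, y₀, y, rfl⟩
  obtain ⟨x, hx, hr⟩ := h u y₀ y
  exact hr.trans (le_worstError S u y₀ y hx)

lemma approxNumber_le_norm (n : ℕ) (S : X →L[𝕜] Y) : approxNumber n S ≤ ‖S‖ := by
  apply approxNumber_le 0 0 0
  intro x hx
  simp only [Pi.zero_apply, smul_zero, Finset.sum_const_zero, sub_zero]
  exact (S.le_opNorm x).trans (mul_le_of_le_one_right (norm_nonneg _) hx)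

lemma approxNumber_succ_le (n : ℕ) (S : X →L[𝕜] Y) :
    approxNumber (n + 1) S ≤ approxNumber n S := by
  apply le_csInf
  · exact ⟨_, 0, 0, 0, rfl⟩
  rintro _ ⟨u, y₀, y, rfl⟩
  apply approxNumber_le (Fin.cons 0 u) y₀ (Fin.cons 0 y)
  intro x hx
  rw [Fin.sum_univ_succ]
  simp only [Fin.cons_zero, smul_zero, zero_add, Fin.cons_succ]
  exact le_worstError S u y₀ y hx

lemma approxNumber_antitone (S : X →L[𝕜] Y) : Antitone fun n => approxNumber n S :=
  antitone_nat_of_succ_le fun n => approxNumber_succ_le n S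

lemma bdd_hilbert (n : ℕ) (S : X →L[𝕜] Y) : BddAbove (sandwichNumbers n (Ell2 𝕜) S) := by
  refine ⟨‖S‖, ?_⟩
  rintro _ ⟨A, B, hA, hB, rfl⟩
  refine (approxNumber_le_norm _ _).trans ?_
  refine (ContinuousLinearMap.opNorm_comp_le _ _).trans ?_
  have h1 := ContinuousLinearMap.opNorm_comp_le S A
  have h2 : ‖S‖ * ‖A‖ ≤ ‖S‖ := mul_le_of_le_one_right (norm_nonneg _) hA
  calc ‖B‖ * ‖S.comp A‖ ≤ 1 * ‖S‖ := mul_le_mul hB (h1.trans h2) (norm_nonneg _) zero_le_one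
    _ = ‖S‖ := one_mul _

lemma le_hilbertNumber (n : ℕ) (S : X →L[𝕜] Y) {A : Ell2 𝕜 →L[𝕜] X} {B : Y →L[𝕜] Ell2 𝕜}
    (hA : ‖A‖ ≤ 1) (hB : ‖B‖ ≤ 1) : approxNumber n (B.comp (S.comp A)) ≤ hilbertNumber n S :=
  le_csSup (bdd_hilbert n S) ⟨A, B, hA, hB, rfl⟩

lemma hilbertNumber_nonneg (n : ℕ) (S : X →L[𝕜] Y) : 0 ≤ hilbertNumber n S := by
  apply Real.sSup_nonneg
  rintro _ ⟨A, B, -, -, rfl⟩
  exact approxNumber_nonneg _ _

end Basic

/-! ### Singular values and Hilbert numbers -/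

section Singular

variable {𝕜 : Type*} [RCLike 𝕜]

/-- an isometric copy of `𝕜^N` in `ℓ²` -/
noncomputable def iso (𝕜 : Type*) [RCLike 𝕜] (N : ℕ) : EuclideanSpace 𝕜 (Fin N) →ₗᵢ[𝕜] Ell2 𝕜 :=
  LinearMap.isometryOfOrthonormal
    ((EuclideanSpace.basisFun (Fin N) 𝕜).toBasis.constr 𝕜
      (fun i : Fin N => (lp.single 2 (i : ℕ) (1 : 𝕜) : Ell2 𝕜)))
    (v := (EuclideanSpace.basisFun (Fin N) 𝕜).toBasis)
    (by
      rw [OrthonormalBasis.coe_toBasis]
      exact (EuclideanSpace.basisFun (Fin N) 𝕜).orthonormal)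
    (by
      rw [orthonormal_iff_ite]
      intro i j
      simp only [Function.comp_apply, Basis.constr_basis]
      rw [lp.inner_single_left, lp.single_apply]
      by_cases h : i = j
      · subst h; simp
      · have : (i : ℕ) ≠ (j : ℕ) := fun hh => h (Fin.ext hh)
        simp [h, this])

/-- a vector on which the first `k` functionals vanish and `f` is at least its singular value -/
lemma exists_vec {N : ℕ} (f : EuclideanSpace 𝕜 (Fin N) →ₗ[𝕜] EuclideanSpace 𝕜 (Fin N)) (k : Fin N)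
    (u : Fin k → EuclideanSpace 𝕜 (Fin N) →ₗ[𝕜] 𝕜) :
    ∃ v, ‖v‖ = 1 ∧ (∀ j, u j v = 0) ∧ f.singularValues k ≤ ‖f v‖ := by
  have hn : finrank 𝕜 (EuclideanSpace 𝕜 (Fin N)) = N := by simp
  have hT := f.isSymmetric_adjoint_comp_self
  set b := hT.eigenvectorBasis hn with hb
  set ev := hT.eigenvalues hn with hev
  let g : Fin (k + 1) → Fin N := Fin.castLE (by have := k.2; omega)
  have hginj : Function.Injective g := Fin.castLE_injective _
  have hon : Orthonormal 𝕜 (fun i => b (g i)) := b.orthonormal.comp g hginj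
  let vecL : (Fin (k + 1) → 𝕜) →ₗ[𝕜] EuclideanSpace 𝕜 (Fin N) :=
    Fintype.linearCombination 𝕜 (fun i => b (g i))
  have hvec : ∀ c, vecL c = ∑ i, c i • b (g i) := fun c => Fintype.linearCombination_apply _ _ _
  let L : (Fin (k + 1) → 𝕜) →ₗ[𝕜] (Fin k → 𝕜) := LinearMap.pi fun j => (u j).comp vecL
  have hker : LinearMap.ker L ≠ ⊥ := by
    apply LinearMap.ker_ne_bot_of_finrank_lt
    simp
  obtain ⟨c, hc, hc0⟩ := Submodule.exists_mem_ne_zero_of_ne_bot hker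
  have hu : ∀ j, u j (vecL c) = 0 := fun j => congrFun (LinearMap.mem_ker.mp hc) j
  set v := vecL c with hv
  have hnorm : ‖v‖ ^ 2 = ∑ i, ‖c i‖ ^ 2 := by
    rw [← inner_self_eq_norm_sq (𝕜 := 𝕜), hv, hvec, hon.inner_sum, map_sum]
    apply Finset.sum_congr rfl
    intro i _
    rw [RCLike.conj_mul, ← RCLike.ofReal_pow, RCLike.ofReal_re]
  have hfv : ‖f v‖ ^ 2 = ∑ i, ev (g i) * ‖c i‖ ^ 2 := by
    have h1 : ‖f v‖ ^ 2 = RCLike.re ⟪v, (LinearMap.adjoint f ∘ₗ f) v⟫_𝕜 := by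
      rw [LinearMap.comp_apply, LinearMap.adjoint_inner_right, inner_self_eq_norm_sq]
    have h2 : (LinearMap.adjoint f ∘ₗ f) v = ∑ i, (c i * (ev (g i) : 𝕜)) • b (g i) := by
      rw [hv, hvec, map_sum]
      apply Finset.sum_congr rfl
      intro i _
      rw [map_smul, hb, hT.apply_eigenvectorBasis, smul_smul]
    rw [h1, h2, hv, hvec, hon.inner_sum, map_sum]
    apply Finset.sum_congr rfl
    intro i _
    rw [← mul_assoc, RCLike.conj_mul, ← RCLike.ofReal_pow, ← RCLike.ofReal_mul, RCLike.ofReal_re,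
      mul_comm]
  have hle : f.singularValues k ^ 2 * ‖v‖ ^ 2 ≤ ‖f v‖ ^ 2 := by
    rw [f.sq_singularValues_fin hn k, hfv, hnorm, Finset.mul_sum]
    apply Finset.sum_le_sum
    intro i _
    refine mul_le_mul_of_nonneg_right ?_ (sq_nonneg _)
    apply hT.eigenvalues_antitone hn
    exact Fin.le_def.mpr (Nat.lt_succ_iff.mp i.2)
  have hpos : 0 < ‖v‖ := by
    have h1 : ‖v‖ ≠ 0 := by
      intro h0
      rw [h0] at hnorm
      apply hc0
      funext i
      have h2 : ∑ i, ‖c i‖ ^ 2 = 0 := by rw [← hnorm]; norm_num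
      rw [Finset.sum_eq_zero_iff_of_nonneg (fun _ _ => sq_nonneg _)] at h2
      have h3 := h2 i (Finset.mem_univ i)
      exact norm_eq_zero.mp (pow_eq_zero_iff (two_ne_zero) |>.mp h3)
    exact lt_of_le_of_ne (norm_nonneg _) h1.symm
  refine ⟨((‖v‖⁻¹ : ℝ) : 𝕜) • v, ?_, ?_, ?_⟩
  · rw [norm_smul, RCLike.norm_ofReal, abs_of_nonneg (by positivity), inv_mul_cancel₀ hpos.ne']
  · intro j
    rw [map_smul, hu, smul_zero]
  · rw [map_smul, norm_smul, RCLike.norm_ofReal, abs_of_nonneg (by positivity)]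
    have h1 : f.singularValues k * ‖v‖ ≤ ‖f v‖ := by
      apply le_of_sq_le_sq _ (norm_nonneg _)
      rw [mul_pow]; exact hle
    rw [inv_mul_eq_div, le_div_iff₀ hpos]
    exact h1

lemma singular_le {N : ℕ} {X Y : Type*} [NormedAddCommGroup X] [NormedSpace 𝕜 X]
    [NormedAddCommGroup Y] [NormedSpace 𝕜 Y] (S : X →L[𝕜] Y)
    (A : EuclideanSpace 𝕜 (Fin N) →L[𝕜] X) (B : Y →L[𝕜] EuclideanSpace 𝕜 (Fin N))
    (hA : ‖A‖ ≤ 1) (hB : ‖B‖ ≤ 1) (k : Fin N) :
    ((B.comp (S.comp A)).toLinearMap).singularValues k ≤ hilbertNumber k S := by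
  set ι := (iso 𝕜 N).toContinuousLinearMap with hι
  set π := ContinuousLinearMap.adjoint ι with hπ
  have hι1 : ‖ι‖ ≤ 1 := (iso 𝕜 N).norm_toContinuousLinearMap_le
  have hπ1 : ‖π‖ ≤ 1 := by rw [hπ, LinearIsometryEquiv.norm_map]; exact hι1
  have hπι : ∀ v, π (ι v) = v := by
    intro v
    have h := LinearIsometry.adjoint_comp_self (iso 𝕜 N)
    have h2 := congrArg (fun T => T v) h
    exact h2
  have hA' : ‖A.comp π‖ ≤ 1 :=
    (ContinuousLinearMap.opNorm_comp_le _ _).trans (mul_le_one₀ hA (norm_nonneg _) hπ1)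
  have hB' : ‖ι.comp B‖ ≤ 1 :=
    (ContinuousLinearMap.opNorm_comp_le _ _).trans (mul_le_one₀ hι1 (norm_nonneg _) hB)
  refine le_trans ?_ (le_hilbertNumber k S hA' hB')
  apply le_approxNumber
  intro u y₀ y
  obtain ⟨v, hv1, hv2, hv3⟩ := exists_vec (B.comp (S.comp A)).toLinearMap k
    (fun j => ((u j).comp ι).toLinearMap)
  set T := (ι.comp B).comp (S.comp (A.comp π)) with hT
  have hTv : ‖T (ι v)‖ = ‖(B.comp (S.comp A)).toLinearMap v‖ := by
    have : T (ι v) = ι (B (S (A v))) := by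
      rw [hT]
      simp only [ContinuousLinearMap.comp_apply, hπι]
    rw [this]
    exact (iso 𝕜 N).norm_map _
  have hιv : ‖ι v‖ = 1 := by rw [← hv1]; exact (iso 𝕜 N).norm_map v
  have hu : ∀ j, u j (ι v) = 0 := hv2
  have hsum : ‖T (ι v) - y₀‖ + ‖T (-ι v) - y₀‖ ≥ 2 * ‖T (ι v)‖ := by
    have h1 : (T (ι v) - y₀) - (T (-ι v) - y₀) = (2 : 𝕜) • T (ι v) := by
      rw [map_neg, two_smul]; abel
    have h2 := norm_sub_le (T (ι v) - y₀) (T (-ι v) - y₀)
    rw [h1, norm_smul] at h2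
    simpa using h2
  by_cases h : ‖T (ι v)‖ ≤ ‖T (ι v) - y₀‖
  · refine ⟨ι v, hιv.le, ?_⟩
    simp only [hu, zero_smul, Finset.sum_const_zero, sub_zero]
    exact (hv3.trans hTv.ge).trans h
  · refine ⟨-ι v, by rw [norm_neg, hιv], ?_⟩
    simp only [map_neg, hu, neg_zero, zero_smul, Finset.sum_const_zero, sub_zero]
    rw [map_neg] at hsum
    have : ‖T (ι v)‖ ≤ ‖-T (ι v) - y₀‖ := by linarith
    exact (hv3.trans hTv.ge).trans this

end Singular

/-! ### Determinants -/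

section Det

variable {𝕜 : Type*} [RCLike 𝕜] {X Y : Type*} [NormedAddCommGroup X] [NormedSpace 𝕜 X]
  [NormedAddCommGroup Y] [NormedSpace 𝕜 Y]

/-- `ξ ↦ ∑ ξ_i x_i` has norm at most one on `ℓ²(ι)` -/
def AdmX (𝕜 : Type*) [RCLike 𝕜] {X : Type*} [NormedAddCommGroup X] [NormedSpace 𝕜 X]
    {ι : Type*} [Fintype ι] (x : ι → X) : Prop :=
  ∀ ξ : ι → 𝕜, ‖∑ i, ξ i • x i‖ ^ 2 ≤ ∑ i, ‖ξ i‖ ^ 2

/-- `y ↦ (b_i(y))_i` has norm at most one into `ℓ²(ι)` -/
def AdmY {ι : Type*} [Fintype ι] (b : ι → Y →L[𝕜] 𝕜) : Prop :=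
  ∀ y, ∑ i, ‖b i y‖ ^ 2 ≤ ‖y‖ ^ 2

/-- the matrix `(b_i(S x_j))` -/
def mat {ι : Type*} (S : X →L[𝕜] Y) (x : ι → X) (b : ι → Y →L[𝕜] 𝕜) : Matrix ι ι 𝕜 :=
  Matrix.of fun i j => b i (S (x j))

lemma det_le_prod {N : ℕ} (S : X →L[𝕜] Y) {x : Fin N → X} {b : Fin N → Y →L[𝕜] 𝕜}
    (hx : AdmX 𝕜 x) (hb : AdmY b) :
    ‖(mat S x b).det‖ ≤ ∏ k ∈ Finset.range N, hilbertNumber k S := by
  let A : EuclideanSpace 𝕜 (Fin N) →L[𝕜] X := LinearMap.mkContinuous
    { toFun := fun ξ => ∑ i, ξ i • x i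
      map_add' := fun ξ η => by simp [add_smul, Finset.sum_add_distrib]
      map_smul' := fun c ξ => by simp [mul_smul, Finset.smul_sum] } 1 (fun ξ => by
        rw [one_mul]
        apply le_of_sq_le_sq _ (norm_nonneg _)
        rw [EuclideanSpace.norm_sq_eq]
        exact hx _)
  have hA : ‖A‖ ≤ 1 := LinearMap.mkContinuous_norm_le _ zero_le_one _
  let B : Y →L[𝕜] EuclideanSpace 𝕜 (Fin N) := LinearMap.mkContinuous
    { toFun := fun y => WithLp.toLp 2 (fun i => b i y)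
      map_add' := fun y z => by ext i; simp
      map_smul' := fun c y => by ext i; simp } 1 (fun y => by
        rw [one_mul]
        apply le_of_sq_le_sq _ (norm_nonneg _)
        rw [EuclideanSpace.norm_sq_eq]
        exact hb y)
  have hB : ‖B‖ ≤ 1 := LinearMap.mkContinuous_norm_le _ zero_le_one _
  set f := (B.comp (S.comp A)).toLinearMap with hf
  have hdet : LinearMap.det f = (mat S x b).det := by
    rw [← LinearMap.det_toMatrix (EuclideanSpace.basisFun (Fin N) 𝕜).toBasis]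
    congr 1
    ext i j
    rw [LinearMap.toMatrix_apply]
    simp [f, A, B, mat]
  rw [← hdet, ← LinearMap.normDet_eq_norm_det, LinearMap.normDet_eq_prod_singularValues]
  have hn : finrank 𝕜 (EuclideanSpace 𝕜 (Fin N)) = N := by simp
  rw [hn]
  apply Finset.prod_le_prod
  · intro i _
    exact f.singularValues_nonneg i
  · intro i hi
    exact singular_le S A B hA hB ⟨i, Finset.mem_range.mp hi⟩

/-- the determinants of admissible `N × N` matrices -/
def Dset (N : ℕ) (S : X →L[𝕜] Y) : Set ℝ :=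
  {r | ∃ (x : Fin N → X) (b : Fin N → Y →L[𝕜] 𝕜), AdmX 𝕜 x ∧ AdmY b ∧ r = ‖(mat S x b).det‖}

/-- the largest determinant -/
noncomputable def D (N : ℕ) (S : X →L[𝕜] Y) : ℝ := sSup (Dset N S)

lemma Dset_bdd (N : ℕ) (S : X →L[𝕜] Y) : BddAbove (Dset N S) := by
  refine ⟨∏ k ∈ Finset.range N, hilbertNumber k S, ?_⟩
  rintro _ ⟨x, b, hx, hb, rfl⟩
  exact det_le_prod S hx hb

lemma Dset_nonempty (N : ℕ) (S : X →L[𝕜] Y) : (Dset N S).Nonempty := by
  refine ⟨_, 0, 0, fun ξ => ?_, fun y => ?_, rfl⟩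
  · simp only [Pi.zero_apply, smul_zero, Finset.sum_const_zero, norm_zero]
    rw [zero_pow two_ne_zero]
    positivity
  · simp

lemma D_le_prod (N : ℕ) (S : X →L[𝕜] Y) : D N S ≤ ∏ k ∈ Finset.range N, hilbertNumber k S := by
  apply csSup_le (Dset_nonempty N S)
  rintro _ ⟨x, b, hx, hb, rfl⟩
  exact det_le_prod S hx hb

lemma D_nonneg (N : ℕ) (S : X →L[𝕜] Y) : 0 ≤ D N S := by
  obtain ⟨r, hr⟩ := Dset_nonempty N S
  have h1 := le_csSup (Dset_bdd N S) hr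
  obtain ⟨x, b, -, -, rfl⟩ := hr
  exact (norm_nonneg _).trans h1

lemma D_zero (S : X →L[𝕜] Y) : D 0 S = 1 := by
  have h : Dset 0 S = {1} := by
    ext r
    constructor
    · rintro ⟨x, b, -, -, rfl⟩
      simp
    · rintro rfl
      exact ⟨0, 0, fun ξ => by simp, fun y => by simp, by simp⟩
  rw [D, h, csSup_singleton]

lemma le_D {ι : Type*} [Fintype ι] [DecidableEq ι] {N : ℕ} (hN : Fintype.card ι = N)
    (S : X →L[𝕜] Y) {x : ι → X} {b : ι → Y →L[𝕜] 𝕜} (hx : AdmX 𝕜 x) (hb : AdmY b) :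
    ‖(mat S x b).det‖ ≤ D N S := by
  let e : ι ≃ Fin N := Fintype.equivFinOfCardEq hN
  apply le_csSup (Dset_bdd N S)
  refine ⟨x ∘ e.symm, b ∘ e.symm, fun ξ => ?_, fun y => ?_, ?_⟩
  · have h := hx (ξ ∘ e)
    rw [← Equiv.sum_comp e, ← Equiv.sum_comp e]
    simpa using h
  · rw [← Equiv.sum_comp e]
    simpa using hb y
  · have h : mat S (x ∘ e.symm) (b ∘ e.symm) = (mat S x b).submatrix e.symm e.symm := rfl
    rw [h, Matrix.det_submatrix_equiv_self]

/-- adjoining one vector and one functional -/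
lemma step_point {m : ℕ} (S : X →L[𝕜] Y) {x : Fin m → X} {b : Fin m → Y →L[𝕜] 𝕜}
    (hx : AdmX 𝕜 x) (hb : AdmY b) (hdet : (mat S x b).det ≠ 0) {z : X} (hz : ‖z‖ ≤ 1) :
    ‖S z - ∑ j, (∑ i, ((mat S x b)⁻¹ j i) * b i (S z)) • S (x j)‖ * ‖(mat S x b).det‖ ≤
      (((m : ℝ) + 1) ^ (m + 1) / (m : ℝ) ^ m) * D (m + 1) S := by
  set M := mat S x b with hM
  set w := S z - ∑ j, (∑ i, (M⁻¹ j i) * b i (S z)) • S (x j) with hw
  obtain ⟨g, hg, hgw⟩ := exists_dual_vector'' 𝕜 w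
  set α := Real.sqrt ((m : ℝ) / (m + 1)) with hα
  set β := Real.sqrt (1 / ((m : ℝ) + 1)) with hβ
  have hα0 : 0 ≤ α := Real.sqrt_nonneg _
  have hβ0 : 0 ≤ β := Real.sqrt_nonneg _
  have hα2 : α ^ 2 = (m : ℝ) / (m + 1) := Real.sq_sqrt (by positivity)
  have hβ2 : β ^ 2 = 1 / ((m : ℝ) + 1) := Real.sq_sqrt (by positivity)
  have hαβ : α ^ 2 + β ^ 2 = 1 := by
    rw [hα2, hβ2]; field_simp
  let x' : Fin m ⊕ Unit → X := Sum.elim (fun i => (α : 𝕜) • x i) (fun _ => (β : 𝕜) • z)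
  let b' : Fin m ⊕ Unit → Y →L[𝕜] 𝕜 := Sum.elim (fun i => (α : 𝕜) • b i) (fun _ => (β : 𝕜) • g)
  have hx' : AdmX 𝕜 x' := by
    intro ξ
    rw [Fintype.sum_sum_type, Fintype.sum_sum_type]
    simp only [x', Sum.elim_inl, Sum.elim_inr, Finset.univ_unique, Finset.sum_singleton]
    have h1 : ∑ i, ξ (Sum.inl i) • (α : 𝕜) • x i = (α : 𝕜) • ∑ i, ξ (Sum.inl i) • x i := by
      rw [Finset.smul_sum]
      exact Finset.sum_congr rfl fun i _ => smul_comm _ _ _
    rw [h1]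
    set P := ‖∑ i, ξ (Sum.inl i) • x i‖ with hP
    set Q := ∑ i, ‖ξ (Sum.inl i)‖ ^ 2 with hQ
    set r := ‖ξ (Sum.inr default)‖ with hr
    have h2 : P ^ 2 ≤ Q := hx _
    have h3 : ‖(α : 𝕜) • (∑ i, ξ (Sum.inl i) • x i) + ξ (Sum.inr default) • (β : 𝕜) • z‖
        ≤ α * P + β * r := by
      refine (norm_add_le _ _).trans ?_
      rw [norm_smul, norm_smul, norm_smul, RCLike.norm_ofReal, RCLike.norm_ofReal,
        abs_of_nonneg hα0, abs_of_nonneg hβ0, ← hP, ← hr]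
      have h4 : r * (β * ‖z‖) ≤ β * r := by
        have h5 : β * ‖z‖ ≤ β := mul_le_of_le_one_right hβ0 hz
        nlinarith [norm_nonneg (ξ (Sum.inr default))]
      linarith
    have h4 : (α * P + β * r) ^ 2 ≤ P ^ 2 + r ^ 2 := by
      nlinarith [sq_nonneg (α * r - β * P), sq_nonneg P, sq_nonneg r]
    calc _ ≤ (α * P + β * r) ^ 2 := pow_le_pow_left₀ (norm_nonneg _) h3 2
      _ ≤ P ^ 2 + r ^ 2 := h4
      _ ≤ Q + r ^ 2 := by linarith
  have hb' : AdmY b' := by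
    intro y
    rw [Fintype.sum_sum_type]
    simp only [b', Sum.elim_inl, Sum.elim_inr, Finset.univ_unique, Finset.sum_singleton,
      smul_apply, smul_eq_mul, norm_mul, RCLike.norm_ofReal,
      abs_of_nonneg hα0, abs_of_nonneg hβ0, mul_pow, ← Finset.mul_sum]
    have h1 := hb y
    have h2 : ‖g y‖ ^ 2 ≤ ‖y‖ ^ 2 := by
      apply pow_le_pow_left₀ (norm_nonneg _)
      refine (g.le_opNorm y).trans ?_
      exact mul_le_of_le_one_left (norm_nonneg _) hg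
    calc _ ≤ α ^ 2 * ‖y‖ ^ 2 + β ^ 2 * ‖y‖ ^ 2 :=
          add_le_add (mul_le_mul_of_nonneg_left h1 (sq_nonneg _))
            (mul_le_mul_of_nonneg_left h2 (sq_nonneg _))
      _ = ‖y‖ ^ 2 := by rw [← add_mul, hαβ, one_mul]
  have hD := le_D (by simp) S hx' hb' (N := m + 1)
  -- the determinant
  let v : Fin m ⊕ Unit → 𝕜 := Sum.elim (fun _ => (α : 𝕜)) (fun _ => (β : 𝕜))
  let M2 : Matrix (Fin m ⊕ Unit) (Fin m ⊕ Unit) 𝕜 :=
    Matrix.fromBlocks M (Matrix.of fun i _ => b i (S z)) (Matrix.of fun _ j => g (S (x j)))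
      (Matrix.of fun _ _ => g (S z))
  have hM2 : mat S x' b' = Matrix.of fun i j => v i * (Matrix.of fun i j => v j * M2 i j) i j := by
    ext i j
    rcases i with i | i <;> rcases j with j | j <;>
      simp [mat, x', b', v, M2, hM, mul_comm, mul_left_comm]
  have hv : ∏ i, v i = ((α ^ m * β : ℝ) : 𝕜) := by
    rw [Fintype.prod_sum_type]
    simp [v]
  have hinv : Invertible M := Matrix.invertibleOfIsUnitDet M (isUnit_iff_ne_zero.mpr hdet)
  have hdet2 : M2.det = M.det * g w := by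
    rw [Matrix.det_fromBlocks₁₁]
    congr 1
    rw [Matrix.det_unique, Matrix.sub_apply, Matrix.mul_apply, hw, map_sub, map_sum, Matrix.of_apply]
    congr 1
    simp only [Matrix.mul_apply, Matrix.of_apply, map_smul, smul_eq_mul, Finset.sum_mul]
    rw [Finset.sum_comm]
    apply Finset.sum_congr rfl
    intro j _
    apply Finset.sum_congr rfl
    intro i _
    rw [Matrix.invOf_eq_nonsing_inv]
    ring
  have hfin : ‖(mat S x' b').det‖ = (α ^ 2) ^ m * β ^ 2 * (‖M.det‖ * ‖w‖) := by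
    rw [hM2, Matrix.det_mul_column, Matrix.det_mul_row, hv, hdet2, hgw, norm_mul, norm_mul,
      norm_mul, RCLike.norm_ofReal, RCLike.norm_ofReal, abs_norm, abs_of_nonneg (by positivity)]
    ring
  rw [hfin, hα2, hβ2, div_pow] at hD
  have hc : (m : ℝ) ^ m > 0 := by
    rcases Nat.eq_zero_or_pos m with h | h
    · subst h; simp
    · positivity
  have hc1 : ((m : ℝ) + 1) ^ m > 0 := by positivity
  have hc2 : (m : ℝ) + 1 > 0 := by positivity
  calc ‖w‖ * ‖M.det‖ = ((m : ℝ) + 1) ^ (m + 1) / (m : ℝ) ^ m *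
        ((m : ℝ) ^ m / ((m : ℝ) + 1) ^ m * (1 / ((m : ℝ) + 1)) * (‖M.det‖ * ‖w‖)) := by
        field_simp
        ring
    _ ≤ _ := mul_le_mul_of_nonneg_left hD (by positivity)

lemma step (m : ℕ) (S : X →L[𝕜] Y) :
    approxNumber m S * D m S ≤ (((m : ℝ) + 1) ^ (m + 1) / (m : ℝ) ^ m) * D (m + 1) S := by
  have hcD : 0 ≤ (((m : ℝ) + 1) ^ (m + 1) / (m : ℝ) ^ m) * D (m + 1) S :=
    mul_nonneg (by positivity) (D_nonneg _ _)
  have key : ∀ r ∈ Dset m S, approxNumber m S * r ≤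
      (((m : ℝ) + 1) ^ (m + 1) / (m : ℝ) ^ m) * D (m + 1) S := by
    rintro _ ⟨x, b, hx, hb, rfl⟩
    by_cases hdet : (mat S x b).det = 0
    · rw [hdet, norm_zero, mul_zero]; exact hcD
    have hpos : 0 < ‖(mat S x b).det‖ := norm_pos_iff.mpr hdet
    rw [← le_div_iff₀ hpos]
    apply approxNumber_le (fun j => ∑ i, ((mat S x b)⁻¹ j i) • (b i).comp S) 0 (fun j => S (x j))
    intro z hz
    rw [le_div_iff₀ hpos]
    have h := step_point S hx hb hdet hz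
    simpa [sum_apply] using h
  rcases (approxNumber_nonneg m S).eq_or_lt with h | h
  · rw [← h, zero_mul]; exact hcD
  · rw [mul_comm, ← le_div_iff₀ h]
    apply csSup_le (Dset_nonempty m S)
    intro r hr
    rw [le_div_iff₀ h, mul_comm]
    exact key r hr

lemma prod_le (N : ℕ) (S : X →L[𝕜] Y) :
    ∏ m ∈ Finset.range N, approxNumber m S ≤ (N : ℝ) ^ N * D N S := by
  induction N with
  | zero => simp [D_zero]
  | succ N ih =>
    rw [Finset.prod_range_succ]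
    have hc : (N : ℝ) ^ N > 0 := by
      rcases Nat.eq_zero_or_pos N with h | h
      · subst h; simp
      · positivity
    calc (∏ m ∈ Finset.range N, approxNumber m S) * approxNumber N S
        ≤ ((N : ℝ) ^ N * D N S) * approxNumber N S :=
          mul_le_mul_of_nonneg_right ih (approxNumber_nonneg _ _)
      _ = (N : ℝ) ^ N * (approxNumber N S * D N S) := by ring
      _ ≤ (N : ℝ) ^ N * ((((N : ℝ) + 1) ^ (N + 1) / (N : ℝ) ^ N) * D (N + 1) S) :=
          mul_le_mul_of_nonneg_left (step N S) hc.le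
      _ = (((N + 1 : ℕ) : ℝ)) ^ (N + 1) * D (N + 1) S := by
          push_cast
          field_simp

end Det

/-- For all normed spaces `X, Y` over `ℝ` or `ℂ`, all bounded operators `S : X → Y` and all
`n ≥ 0` one has `a_n(S) ≤ (n + 1) G_n(S)`, where `G_n(S)` is the geometric mean of the Hilbert
numbers `h_0(S), …, h_n(S)`. -/
theorem result (𝕜 : Type*) [RCLike 𝕜] (X Y : Type*) [NormedAddCommGroup X] [NormedSpace 𝕜 X]
    [NormedAddCommGroup Y] [NormedSpace 𝕜 Y] (S : X →L[𝕜] Y) (n : ℕ) :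
    approxNumber n S ≤ ((n : ℝ) + 1) * geomMean n S := by
  have h1 : approxNumber n S ^ (n + 1) ≤ ∏ m ∈ Finset.range (n + 1), approxNumber m S := by
    have h2 : approxNumber n S ^ (n + 1) = ∏ _m ∈ Finset.range (n + 1), approxNumber n S := by
      rw [Finset.prod_const, Finset.card_range]
    rw [h2]
    apply Finset.prod_le_prod
    · intro i _
      exact approxNumber_nonneg n S
    · intro i hi
      exact approxNumber_antitone S (Nat.lt_succ_iff.mp (Finset.mem_range.mp hi))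
  have h2 := prod_le (n + 1) S
  have h3 := D_le_prod (n + 1) S
  set G := ∏ k ∈ Finset.range (n + 1), hilbertNumber k S with hG
  have hG0 : 0 ≤ G := Finset.prod_nonneg fun k _ => hilbertNumber_nonneg k S
  have h4 : approxNumber n S ^ (n + 1) ≤ ((n : ℝ) + 1) ^ (n + 1) * G := by
    refine h1.trans (h2.trans ?_)
    push_cast
    exact mul_le_mul_of_nonneg_left h3 (by positivity)
  have h5 : geomMean n S ^ (n + 1) = G := by
    rw [geomMean, ← hG, ← Real.rpow_natCast, ← Real.rpow_mul hG0]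
    have : 1 / ((n : ℝ) + 1) * ((n + 1 : ℕ) : ℝ) = 1 := by
      push_cast
      field_simp
    rw [this, Real.rpow_one]
  have hg0 : 0 ≤ geomMean n S := Real.rpow_nonneg hG0 _
  rw [← h5, ← mul_pow] at h4
  exact le_of_pow_le_pow_left₀ (Nat.succ_ne_zero n) (by positivity) h4

end Pool.Agent.Results.MP_69de12_an.HilbertBound
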